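import Pool.Agent.Helper11.TS.Final
import Pool.Agent.Helper11.TS.Dim
import Pool.Agent.Helper11.TS.Dom1

/-!
# Dynamical Mordell-Lang for triangular endomorphisms over a power map
-/

set_option autoImplicit false

namespace Pool.Agent.Results.MP_b15c9e_ag.SkewPowerMaps

open MvPolynomial

/-- The field of algebraic numbers, a subfield of `ℂ`. -/
abbrev Qb : Type := algebraicClosure ℚ ℂ

/-- The point `x` lies in the zero set of the set `S` of polynomials. -/
def On {m : ℕ} (S : Set (MvPolynomial (Fin m) ℂ)) (x : Fin m → ℂ) : Prop := ∀ g ∈ S, eval x g = 0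

/-- The absolute value `w` of the field of algebraic numbers is induced by an embedding in `ℂ` or
in an algebraic closure of the field of `p`-adic numbers, for a prime `p`. -/
def IsPlace (w : AbsoluteValue Qb ℝ) : Prop :=
  (∃ τ : Qb →+* ℂ, ∀ x, w x = ‖τ x‖) ∨
    ∃ (p : ℕ) (_ : Fact p.Prime) (τ : Qb →+* PadicAlgCl p), ∀ x, w x = ‖τ x‖

/-- The dominant root condition: for some absolute value `w` of this kind, every product of
integral powers, of total exponent `0`, of the nonzero numbers among `a_0, ..., a_r` which has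
absolute value `1` is a root of unity. (For the usual absolute value this holds for instance if
`a_0, ..., a_r` are real.) -/
def Dominant {N : ℕ} (r : ℕ) (a : Fin (N + 1) → Qb) : Prop :=
  ∃ w : AbsoluteValue Qb ℝ, IsPlace w ∧ ∀ m : Fin (N + 1) → ℤ,
    (∀ i, m i ≠ 0 → (i : ℕ) ≤ r ∧ a i ≠ 0) → ∑ i, m i = 0 →
      w (∏ i, a i ^ m i) = 1 → ∃ k : ℕ, 0 < k ∧ (∏ i, a i ^ m i) ^ k = 1

/-- The numbers `a_1 / a_0, ..., a_r / a_0` are nonzero and multiplicatively independent. -/
def Independent {N : ℕ} (r : ℕ) (a : Fin (N + 1) → Qb) : Prop :=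
  (∀ i : Fin (N + 1), (i : ℕ) ≤ r → a i ≠ 0) ∧
    ∀ m : Fin (N + 1) → ℤ, (∀ i, m i ≠ 0 → (i : ℕ) ≤ r) → ∑ i, m i = 0 →
      ∏ i, a i ^ m i = 1 → m = 0

/-- The closed set defined by `S` has dimension at most `r`: some `r + 1` forms of positive degree
have no common zero on it. -/
def DimLE {N : ℕ} (r : ℕ) (S : Set (MvPolynomial (Fin (N + 1)) ℂ)) : Prop :=
  ∃ h : Fin (r + 1) → MvPolynomial (Fin (N + 1)) ℂ,
    (∀ i, ∃ e : ℕ, 0 < e ∧ (h i).IsHomogeneous e) ∧
      ∀ x, On S x → (∀ i, eval x (h i) = 0) → x = 0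

/-- For every `j` with `r < j < N` some nonzero form in the variables `X_0, ..., X_r, X_j` vanishes
on the closed set defined by `S`. (If `N = r + 1` this is no condition.) -/
def Small {N : ℕ} (r : ℕ) (S : Set (MvPolynomial (Fin (N + 1)) ℂ)) : Prop :=
  ∀ j : Fin (N + 1), r < (j : ℕ) → (j : ℕ) < N → ∃ (g : MvPolynomial (Fin (N + 1)) ℂ) (e : ℕ), g ≠ 0 ∧
    g.IsHomogeneous e ∧ (∀ i ∈ g.vars, (i : ℕ) ≤ r ∨ i = j) ∧ ∀ x, On S x → eval x g = 0

theorem small_of_dim {N r : ℕ} {S : Set (MvPolynomial (Fin (N + 1)) ℂ)}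
    (hS : ∀ g ∈ S, ∃ e : ℕ, g.IsHomogeneous e) (h : DimLE r S) : Small r S := by
  obtain ⟨h, hh, h0⟩ := h
  choose e he using hh
  intro j hj _
  have hjN := j.2
  set φ : Fin (r + 2) → Fin (N + 1) := fun i =>
    if hi : (i : ℕ) ≤ r then ⟨i, by omega⟩ else j with hφ
  have hinj : Function.Injective φ := by
    intro i i' hii
    have h1 := i.2
    have h2 := i'.2
    simp only [hφ] at hii
    apply Fin.ext
    by_cases hi : (i : ℕ) ≤ r
    · by_cases hi' : (i' : ℕ) ≤ r
      · rw [dif_pos hi, dif_pos hi'] at hii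
        exact congrArg (fun x : Fin (N + 1) => (x : ℕ)) hii
      · rw [dif_pos hi, dif_neg hi'] at hii
        have := congrArg Fin.val hii
        simp only at this
        omega
    · by_cases hi' : (i' : ℕ) ≤ r
      · rw [dif_neg hi, dif_pos hi'] at hii
        have := congrArg Fin.val hii
        simp only at this
        omega
      · omega
  obtain ⟨g, n, hg, hgn, hgv, hgZ⟩ := Pool.Agent.Helper11.TS.relation {x | On S x} (by
      intro x hx c g hg
      obtain ⟨d, hd⟩ := hS g hg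
      rw [Pool.Agent.Helper11.TS.eval_smul_hom hd, hx g hg, mul_zero])
    (fun x hx g hg => hx g fun y hy => hy g hg) h e (fun i => (he i).1) (fun i => (he i).2)
    (fun x hx => h0 x hx) φ hinj
  refine ⟨g, n, hg, hgn, ?_, fun x hx => hgZ x hx⟩
  intro i hi
  obtain ⟨l, hl⟩ := hgv i hi
  rw [← hl]
  simp only [hφ]
  by_cases hl' : (l : ℕ) ≤ r
  · rw [dif_pos hl']
    exact Or.inl hl'
  · rw [dif_neg hl']
    exact Or.inr rfl

/-- Let `d ≥ 2` and let `Φ = [X_0 ^ d : ... : X_r ^ d : F_(r+1) : ... : F_N]`, `r < N`, be an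
endomorphism of projective `N`-space, where `F_j` is a form of degree `d` in `X_0, ..., X_j` with
algebraic coefficients in which `X_j ^ d` has a nonzero coefficient. Let `a` be a point with
algebraic coordinates and `V` a closed subset of complex projective `N`-space. Assume
* `r ≤ 1`, or `a_0, ..., a_r` satisfy the dominant root condition;
* `N = r + 1`, or `a_1 / a_0, ..., a_r / a_0` are nonzero and multiplicatively independent;
* for every `j` with `r < j < N` some nonzero form in `X_0, ..., X_r, X_j` vanishes on `V` (no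
  condition if `N = r + 1`), or `V` has dimension at most `r`.
Then the return set `{n : Φ^n(a) ∈ V}` is a finite union of arithmetic progressions. -/
theorem result (N r d : ℕ) (hd : 2 ≤ d) (hrN : r < N)
    (F : Fin (N + 1) → MvPolynomial (Fin (N + 1)) Qb)
    (hF : ∀ i, (F i).IsHomogeneous d)
    (hpow : ∀ i : Fin (N + 1), (i : ℕ) ≤ r → F i = X i ^ d)
    (htri : ∀ j : Fin (N + 1), r < (j : ℕ) →
      (∀ i ∈ (F j).vars, i ≤ j) ∧ (F j).coeff (Finsupp.single j d) ≠ 0)
    (a : Fin (N + 1) → Qb) (ha : a ≠ 0) (hdom : r ≤ 1 ∨ Dominant r a)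
    (hind : N = r + 1 ∨ Independent r a)
    (S : Set (MvPolynomial (Fin (N + 1)) ℂ)) (hS : ∀ g ∈ S, ∃ e : ℕ, g.IsHomogeneous e)
    (hV : Small r S ∨ DimLE r S) :
    ∃ T : Finset (ℕ × ℕ),
      {n : ℕ | On S fun i =>
        (((fun (x : Fin (N + 1) → Qb) (i : Fin (N + 1)) => eval x (F i))^[n] a i : Qb) : ℂ)} =
        {n : ℕ | ∃ q ∈ T, ∃ k : ℕ, n = q.1 * k + q.2} := by
  have hT : Pool.Agent.Helper11.TS.Tri r d F :=
    ⟨hd, hF, hpow, fun j hj => (htri j hj).1, fun j hj => (htri j hj).2⟩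
  obtain ⟨𝒢, h𝒢, hS𝒢⟩ := Pool.Agent.Helper11.TS.descend S hS
  have hset : {n : ℕ | On S fun i =>
        (((fun (x : Fin (N + 1) → Qb) (i : Fin (N + 1)) => eval x (F i))^[n] a i : Qb) : ℂ)} =
      Pool.Agent.Helper11.TS.ret F a 𝒢 := by
    ext n
    exact (hS𝒢 _).symm
  rw [hset]
  have hdom' : ∃ w : AbsoluteValue Qb ℝ, Pool.Agent.Helper11.TS.IsPl w ∧
      Pool.Agent.Helper11.TS.DomK r a w := by
    rcases hdom with h | ⟨w, hw, h⟩
    · exact Pool.Agent.Helper11.TS.exists_dom h a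
    · exact ⟨w, hw, h⟩
  obtain ⟨w, hw, hG⟩ := hdom'
  have hV' : Small r S := by
    rcases hV with h | h
    · exact h
    · exact small_of_dim hS h
  refine Pool.Agent.Helper11.TS.main_AB hT hrN a ha w hw hG hind 𝒢 h𝒢 ?_
  intro j hj hjN
  obtain ⟨g, e, hg, he, hgv, hgS⟩ := hV' j hj hjN
  obtain ⟨g', hg', he', hgv', hgS'⟩ := Pool.Agent.Helper11.TS.descend_form
    {x | ∀ g' ∈ 𝒢, eval x g' = 0} g hg e he fun x hx => hgS _ ((hS𝒢 x).1 hx)
  exact ⟨g', e, hg', he', fun i hi => hgv i (hgv' hi), hgS'⟩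

end Pool.Agent.Results.MP_b15c9e_ag.SkewPowerMaps
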