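import Mathlib
import Pool.Agent.Helper30.AV.Final

/-!
# The dynamical Mordell-Lang conjecture up to super-sparse sets for endomorphisms of `P^N`
-/

set_option autoImplicit false

namespace Pool.Agent.Results.MP_b15c9e_ag.SuperSparse

open MvPolynomial

/-- The map `x ↦ (F_0(x), ..., F_N(x))` of affine space given by polynomials `F_i`. -/
noncomputable def toMap {N : ℕ} (F : Fin (N + 1) → MvPolynomial (Fin (N + 1)) ℂ)
    (x : Fin (N + 1) → ℂ) : Fin (N + 1) → ℂ := fun i => eval x (F i)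

/-- `x` lies in the zero set of the set of polynomials `S`. -/
def On {N : ℕ} (S : Set (MvPolynomial (Fin (N + 1)) ℂ)) (x : Fin (N + 1) → ℂ) : Prop :=
  ∀ g ∈ S, eval x g = 0

/-- The Jacobian matrix `(∂F_i/∂x_j)(x)`. -/
noncomputable def jacobian {N : ℕ} (F : Fin (N + 1) → MvPolynomial (Fin (N + 1)) ℂ)
    (x : Fin (N + 1) → ℂ) : Matrix (Fin (N + 1)) (Fin (N + 1)) ℂ :=
  Matrix.of fun i j => eval x (pderiv j (F i))

/-- The Jacobian matrix at `x` of the `k`-th iterate of `toMap F`, by the chain rule the product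
of the Jacobian matrices of `F` at `toMap F^(k-1) x, ..., toMap F x, x`. -/
noncomputable def jacobianIter {N : ℕ} (F : Fin (N + 1) → MvPolynomial (Fin (N + 1)) ℂ)
    (x : Fin (N + 1) → ℂ) : ℕ → Matrix (Fin (N + 1)) (Fin (N + 1)) ℂ
  | 0 => 1
  | k + 1 => jacobian F ((toMap F)^[k] x) * jacobianIter F x k

theorem jacobianIter_eq {N : ℕ} (F : Fin (N + 1) → MvPolynomial (Fin (N + 1)) ℂ)
    (x : Fin (N + 1) → ℂ) (k : ℕ) : jacobianIter F x k = Helper33.SS.jprod F x k := by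
  induction k with
  | zero => rfl
  | succ k ih =>
    show jacobian F ((toMap F)^[k] x) * jacobianIter F x k = _
    rw [ih]
    rfl

/-- Let `Φ = [F_0 : ... : F_N]` be an endomorphism of complex projective space of degree `d ≥ 1`,
`E` a closed subset with `Φ⁻¹(E) ⊆ E`, and `V = V_1 ∪ ... ∪ V_r` closed, where each `V_j` satisfies

* (a) `Φ^k(V_j) ⊆ V_j` for some `k ≥ 1`, or
* (b) `N ≤ 2`, or the dimension of `V_j` is at most one (the Krull dimension of the quotient by the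
  ideal of its equations is at most two), or for each `k ≥ 1` only finitely many points outside
  `E` have their whole orbit under `Φ^k` in `V_j`; and for all but finitely many periodic points
  `y ∈ V_j` outside `E` the following holds: for every `k ≥ 1` with `Φ^k(y) = y`, zero is at most a
  simple eigenvalue of the differential of `Φ^k` at `y` (i.e. of the Jacobian matrix of the `k`-th
  iterate of `F` at a representative).

Then for every point `a` outside `E` the return set `{n : Φ^n(a) ∈ V}` is the union of finitely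
many arithmetic progressions and a super-sparse set `T`: there are `C > 1`, `c > 0` and `R` such
that `T` has at most `R` elements in every interval `[n, m]` with `m ≤ c C^n`. -/
theorem result (N d : ℕ) (hd : 1 ≤ d)
    (F : Fin (N + 1) → MvPolynomial (Fin (N + 1)) ℂ) (hF : ∀ i, (F i).IsHomogeneous d)
    (hnz : ∀ x : Fin (N + 1) → ℂ, (∀ i, eval x (F i) = 0) → x = 0)
    (E : Set (MvPolynomial (Fin (N + 1)) ℂ)) (hE : ∀ g ∈ E, ∃ e : ℕ, g.IsHomogeneous e)
    (hEinv : ∀ x : Fin (N + 1) → ℂ, x ≠ 0 → On E (toMap F x) → On E x)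
    (r : ℕ) (V : Fin r → Set (MvPolynomial (Fin (N + 1)) ℂ))
    (hV : ∀ j, ∀ g ∈ V j, ∃ e : ℕ, g.IsHomogeneous e)
    (hcase : ∀ j, (∃ k, 1 ≤ k ∧ ∀ x, x ≠ 0 → On (V j) x → On (V j) ((toMap F)^[k] x)) ∨
      ((N ≤ 2 ∨ ringKrullDim (MvPolynomial (Fin (N + 1)) ℂ ⧸ Ideal.span (V j)) ≤ 2 ∨
        ∀ k, 1 ≤ k → ∃ B : Finset (Fin (N + 1) → ℂ), ∀ x : Fin (N + 1) → ℂ, x ≠ 0 →
          ¬ On E x → (∀ n, On (V j) ((toMap F)^[k * n] x)) → ∃ b ∈ B, ∃ c : ℂ, x = c • b) ∧
      ∃ B : Finset (Fin (N + 1) → ℂ), ∀ x : Fin (N + 1) → ℂ, x ≠ 0 → ¬ On E x → On (V j) x →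
        ∀ k, 1 ≤ k → ∀ c : ℂ, (toMap F)^[k] x = c • x →
          N ≤ ((jacobianIter F x k) ^ 2).rank ∨ ∃ b ∈ B, ∃ c' : ℂ, x = c' • b))
    (a : Fin (N + 1) → ℂ) (ha : a ≠ 0) (haE : ¬ On E a) :
    ∃ (P : Finset (ℕ × ℕ)) (T : Set ℕ) (C c : ℝ) (R : ℕ), 1 < C ∧ 0 < c ∧
      (∀ n m : ℕ, (m : ℝ) ≤ c * C ^ n → (T ∩ Set.Icc n m).ncard ≤ R) ∧
      {n : ℕ | ∃ j, On (V j) ((toMap F)^[n] a)} =
        {n : ℕ | ∃ q ∈ P, ∃ m : ℕ, n = q.1 * m + q.2} ∪ T := by
  obtain ⟨P, T, ⟨C, c, R, hC, hc, hT⟩, hPT⟩ := Helper30.AV.main' N d hd F hF hnz E hE hEinv r V hV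
    (fun j => (hcase j).imp id fun h => ⟨h.1, by
      obtain ⟨B, hB⟩ := h.2
      refine ⟨B, fun x hx h1 h2 k hk c hc => ?_⟩
      rw [← jacobianIter_eq]
      exact hB x hx h1 h2 k hk c hc⟩) a ha haE
  exact ⟨P, T, C, c, R, hC, hc, hT, hPT⟩

end Pool.Agent.Results.MP_b15c9e_ag.SuperSparse
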